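import Pool.Agent.Helper67.NO.St5

/-! MODULE DFI of project NO (MP_26be5b_ag): the Ricci-flat cone potential on a nilpotent orbit. -/

set_option autoImplicit false

namespace Pool.Agent.Helper95.NO

open Pool.Agent.Helper67.NO
open Matrix
open scoped Matrix.Norms.Frobenius ContDiff Topology ComplexOrder

universe u

/-- every nilpotent matrix has a rank type -/
private theorem exists_RT {n : ℕ} (A : Matrix (Fin n) (Fin n) ℂ) (m : ℕ) (hm : A ^ m = 0) :
    RT (fun q : (Σ i : Fin m, Fin ((A ^ ((i : ℕ) + 1)).rank)) => (q.1 : ℕ)) A := by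
  intro i
  by_cases hi : i < m
  · have e : {q : (Σ i : Fin m, Fin ((A ^ ((i : ℕ) + 1)).rank)) // (q.1 : ℕ) = i} ≃
        Fin ((A ^ (i + 1)).rank) :=
      (Equiv.subtypeEquivRight (fun q => by
        constructor
        · intro h; exact Fin.ext h
        · intro h; rw [h] : ∀ q : (Σ i : Fin m, Fin ((A ^ ((i : ℕ) + 1)).rank)),
          (q.1 : ℕ) = i ↔ q.1 = (⟨i, hi⟩ : Fin m))).trans
        (Equiv.sigmaSubtype (⟨i, hi⟩ : Fin m))
    rw [Fintype.card_congr e, Fintype.card_fin]
  · have h0 : A ^ (i + 1) = 0 := by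
      have : i + 1 = m + (i + 1 - m) := by omega
      rw [this, pow_add, hm, zero_mul]
    rw [h0, Matrix.rank_zero]
    symm
    rw [Fintype.card_eq_zero_iff]
    constructor
    rintro ⟨q, hq⟩
    have h2 := q.1.2
    change (q.1 : ℕ) = i at hq
    omega

/-- an injective linear map into matrices is bounded above and below by `size` -/
private theorem size_equiv {n : ℕ} {g : Type u} [LieRing g] [LieAlgebra ℂ g]
    [FiniteDimensional ℂ g] (T : g →ₗ[ℂ] Matrix (Fin n) (Fin n) ℂ)
    (hT : Function.Injective T) :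
    ∃ m M : ℝ, 0 < m ∧ 0 ≤ M ∧ ∀ x : g, m * size x ≤ ‖T x‖ ∧ ‖T x‖ ≤ M * size x := by
  classical
  set e := (Module.finBasis ℂ g).equivFun with he
  let S : (Fin (Module.finrank ℂ g) → ℂ) →ₗ[ℂ] Matrix (Fin n) (Fin n) ℂ := T ∘ₗ e.symm.toLinearMap
  have hS : LinearMap.ker S = ⊥ := by
    rw [LinearMap.ker_eq_bot]
    exact hT.comp e.symm.injective
  obtain ⟨K, hK0, hK⟩ := LinearMap.exists_antilipschitzWith S hS
  have hTx : ∀ x : g, T x = S (e x) := by
    intro x
    simp [S]
  have hsz : ∀ x : g, size x = ∑ i, ‖e x i‖ := by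
    intro x
    rfl
  have h1 : ∀ v : Fin (Module.finrank ℂ g) → ℂ, ‖v‖ ≤ ∑ i, ‖v i‖ := by
    intro v
    rw [pi_norm_le_iff_of_nonneg (Finset.sum_nonneg fun i _ => norm_nonneg _)]
    intro i
    exact Finset.single_le_sum (f := fun i => ‖v i‖) (fun i _ => norm_nonneg _) (Finset.mem_univ i)
  have h2 : ∀ v : Fin (Module.finrank ℂ g) → ℂ, ∑ i, ‖v i‖ ≤ (Module.finrank ℂ g : ℝ) * ‖v‖ := by
    intro v
    have : ∑ i, ‖v i‖ ≤ ∑ _i : Fin (Module.finrank ℂ g), ‖v‖ :=
      Finset.sum_le_sum fun i _ => norm_le_pi_norm v i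
    simpa using this
  have h3 : ∀ v, ‖v‖ ≤ K * ‖S v‖ := by
    intro v
    have := hK.le_mul_norm_sub (x := v) (y := 0)
    simpa using this
  have hKn : (0 : ℝ) ≤ (K : ℝ) := K.2
  refine ⟨1 / ((Module.finrank ℂ g : ℝ) * K + 1), ∑ i, ‖T (Module.finBasis ℂ g i)‖, by positivity,
    Finset.sum_nonneg fun i _ => norm_nonneg _, ?_⟩
  intro x
  constructor
  · have h4 : size x ≤ (Module.finrank ℂ g : ℝ) * K * ‖T x‖ := by
      rw [hsz, hTx, mul_assoc]
      exact (h2 _).trans (mul_le_mul_of_nonneg_left (h3 _) (by positivity))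
    rw [div_mul_eq_mul_div, one_mul, div_le_iff₀ (by positivity)]
    nlinarith [norm_nonneg (T x)]
  · have h5 : T x = ∑ i, (Module.finBasis ℂ g).repr x i • T (Module.finBasis ℂ g i) := by
      conv_lhs => rw [← (Module.finBasis ℂ g).sum_repr x, map_sum]
      simp only [map_smul]
    rw [h5, size, Finset.mul_sum]
    refine (norm_sum_le _ _).trans (Finset.sum_le_sum fun i _ => ?_)
    rw [norm_smul, mul_comm]
    exact mul_le_mul_of_nonneg_right (Finset.single_le_sum
      (f := fun i => ‖T (Module.finBasis ℂ g i)‖) (fun i _ => norm_nonneg _) (Finset.mem_univ i))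
      (norm_nonneg _)

theorem pDFI (h1 : StNIL) (h2 : StIFA) (h3 : StRES) (h4 : StCPT.{u}) (h5 : StDAD.{u})
    (h6 : StDOR.{u}) (h7 : StDCU) (h8 : StDPO) (h9 : StDGR.{u}) (h10 : StCBS.{u}) :
    StDFI.{u} := by
  intro g _ _ _ hKil x₀ hx₀ hnil
  obtain ⟨b, hL⟩ := h4 g
  obtain ⟨d1, d2, -, d4, d5, -⟩ := h5 _ g b
  have hinj := d2 hKil
  obtain ⟨c1, -⟩ := h10 _ g b
  obtain ⟨m, hm⟩ := d5 x₀ hnil
  set lev : (Σ i : Fin m, Fin ((adM b x₀ ^ ((i : ℕ) + 1)).rank)) → ℕ := fun q => (q.1 : ℕ) with hlev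
  have hRT₀ : RT lev (adM b x₀) := exists_RT _ m hm
  have hIf := h2 (Fin (Module.finrank ℂ g)) (Σ i : Fin m, Fin ((adM b x₀ ^ ((i : ℕ) + 1)).rank)) lev
  have hOrb := h6 _ g b hL x₀ hx₀ hnil
  have hRT : ∀ x, Orb x₀ x → RT lev (adM b x) := by
    intro x hx
    obtain ⟨⟨v, hv, e⟩, -⟩ := hOrb x hx
    rw [e]
    exact (h1 _ _ lev _ hRT₀).2.1 v hv
  -- the function along the orbit
  have hch : ∀ (x : g) (k : ℕ) (X : Fin k → g), (fun w : Fin k → ℂ => rho lev (adM b (chart x X w))) =
      fun w : Fin k → ℂ => rho lev (NormedSpace.exp (∑ j, w j • adM b (X j)) * adM b x *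
        NormedSpace.exp (-∑ j, w j • adM b (X j))) := by
    intro x k X
    funext w
    rw [chart, d4, map_sum]
    simp only [map_smul]
  -- the main computation
  have main : ∀ x, Orb x₀ x → ∀ (k : ℕ) (X : Fin k → g), ∃ G : Matrix (Fin k) (Fin k) ℂ,
      chess (fun w : Fin k → ℂ => rho lev (adM b (chart x X w))) = Gᵀ ∧ G.PosSemidef ∧
      (k = Module.finrank ℂ (LinearMap.range (LieAlgebra.ad ℂ g x : g →ₗ[ℂ] g)) →
        G.det = ((‖(Matrix.of fun i j : Fin k => killingForm ℂ g x ⁅X i, X j⁆).det‖ : ℝ) : ℂ)) := by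
    intro x hx k X
    have hA := hRT x hx
    obtain ⟨B, hB⟩ := hIf.bform _ hA
    obtain ⟨s1, s2⟩ := h7 _ _ lev hIf _ hA k (fun j => adM b (X j))
    rw [hch]
    have hsl : ∀ (c : ℂ) (Y Z : Matrix (Fin (Module.finrank ℂ g)) (Fin (Module.finrank ℂ g)) ℂ),
        B (c • Y) Z = star c * B Y Z := by
      intro c Y Z
      rw [hB.symm Z (c • Y), hB.smul, star_mul', ← hB.symm Z Y]
    have hal : ∀ (Y Y' Z : Matrix (Fin (Module.finrank ℂ g)) (Fin (Module.finrank ℂ g)) ℂ),
        B (Y + Y') Z = B Y Z + B Y' Z := by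
      intro Y Y' Z
      rw [hB.symm Z (Y + Y'), hB.add, star_add, ← hB.symm Z Y, ← hB.symm Z Y']
    have h0r : ∀ Y, B Y 0 = 0 := by
      intro Y
      have := hB.smul 0 Y 0
      simpa using this
    have h0l : ∀ Y, B 0 Y = 0 := by
      intro Y
      have := hsl 0 0 Y
      simpa using this
    have hsr : ∀ (s : Finset (Fin k)) (c : Fin k → ℂ)
        (Z : Fin k → Matrix (Fin (Module.finrank ℂ g)) (Fin (Module.finrank ℂ g)) ℂ) (Y),
        B Y (∑ j ∈ s, c j • Z j) = ∑ j ∈ s, c j * B Y (Z j) := by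
      intro s c Z Y
      induction s using Finset.induction_on with
      | empty => simp [h0r]
      | insert a s ha ih => rw [Finset.sum_insert ha, Finset.sum_insert ha, hB.add, hB.smul, ih]
    have hsL : ∀ (s : Finset (Fin k)) (c : Fin k → ℂ)
        (Z : Fin k → Matrix (Fin (Module.finrank ℂ g)) (Fin (Module.finrank ℂ g)) ℂ) (Y),
        B (∑ j ∈ s, c j • Z j) Y = ∑ j ∈ s, star (c j) * B (Z j) Y := by
      intro s c Z Y
      induction s using Finset.induction_on with
      | empty => simp [h0l]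
      | insert a s ha ih => rw [Finset.sum_insert ha, Finset.sum_insert ha, hal, hsl, ih]
    have hH : (Matrix.of fun i j : Fin k => B (adM b (X i)) (adM b (X j))).IsHermitian := by
      ext i j
      simp only [conjTranspose_apply, of_apply]
      exact (hB.symm _ _).symm
    have hq : ∀ c : Fin k → ℂ,
        D2 (fun w : Fin k → ℂ => rho lev (NormedSpace.exp (∑ j, w j • adM b (X j)) * adM b x *
          NormedSpace.exp (-∑ j, w j • adM b (X j)))) c c +
        D2 (fun w : Fin k → ℂ => rho lev (NormedSpace.exp (∑ j, w j • adM b (X j)) * adM b x *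
          NormedSpace.exp (-∑ j, w j • adM b (X j)))) (Complex.I • c) (Complex.I • c) =
        4 * (∑ i, ∑ j, star (c i) * c j *
          (Matrix.of fun i j : Fin k => B (adM b (X i)) (adM b (X j))) i j).re := by
      intro c
      rw [s2 c, s2 (Complex.I • c)]
      have e1 : ∑ j, (Complex.I • c) j • adM b (X j) = Complex.I • ∑ j, c j • adM b (X j) := by
        rw [Finset.smul_sum]
        refine Finset.sum_congr rfl fun j _ => ?_
        rw [Pi.smul_apply, smul_eq_mul, mul_smul]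
      rw [e1]
      have e2 := hB.levi (∑ j, c j • adM b (X j))
      have e3 : B (∑ j, c j • adM b (X j)) (∑ j, c j • adM b (X j)) =
          ∑ i, ∑ j, star (c i) * c j *
          (Matrix.of fun i j : Fin k => B (adM b (X i)) (adM b (X j))) i j := by
        rw [hsL]
        refine Finset.sum_congr rfl fun i _ => ?_
        rw [hsr, Finset.mul_sum]
        refine Finset.sum_congr rfl fun j _ => ?_
        rw [of_apply, mul_assoc]
      rw [← e3]
      linarith
    have hchess := h8 k _ _ s1 hH hq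
    -- the Gram determinant
    have hom : ∀ X Y : g, trace (adM b x * br (adM b X) (adM b Y)) = killingForm ℂ g x ⁅X, Y⁆ := by
      intro X Y
      rw [c1, d1]
    have hker : ∀ X : g, X ∈ LinearMap.ker (LieAlgebra.ad ℂ g x : g →ₗ[ℂ] g) ↔
        B (adM b X) (adM b X) = 0 := by
      intro X
      rw [hB.ker, c1, LinearMap.mem_ker, LieAlgebra.ad_apply, ← lie_skew, neg_eq_zero]
      constructor
      · intro h
        rw [h, map_zero]
      · intro h
        exact hinj (by rw [h, map_zero])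
    obtain ⟨g1, g2⟩ := h9 g (fun X Y => B (adM b X) (adM b Y)) (fun X Y => killingForm ℂ g x ⁅X, Y⁆)
      (LinearMap.ker (LieAlgebra.ad ℂ g x : g →ₗ[ℂ] g))
      (fun X Y Z => by simp only [map_add, hB.add])
      (fun c X Y => by simp only [map_smul, hB.smul])
      (fun X Y => hB.symm _ _)
      (fun X => hB.nonneg _)
      (fun X Y Z => by rw [lie_add, map_add])
      (fun c X Y => by rw [lie_smul, map_smul, smul_eq_mul])
      (fun X Y => by rw [← lie_skew, map_neg])
      hker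
      (fun X hX Y => by
        have e : ⁅x, X⁆ = 0 := hX
        have := LieModule.traceForm_apply_lie_apply ℂ g g x X Y
        rw [e, map_zero, LinearMap.zero_apply] at this
        exact this.symm)
      (fun X => by
        obtain ⟨X', ⟨X'', rfl⟩, hX'⟩ := h3 _ _ lev (LinearMap.range (adM b)) hIf hL (adM b x)
          ⟨x, rfl⟩ hA B hB (adM b X) ⟨X, rfl⟩
        refine ⟨X'', fun Y => ?_⟩
        obtain ⟨r1, r2⟩ := hX' (adM b Y) ⟨Y, rfl⟩
        rw [hom] at r1 r2
        exact ⟨r1, r2⟩)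
    refine ⟨_, hchess, g1 k X, fun hk => g2 k X ?_⟩
    rw [hk]
    exact (LinearMap.quotKerEquivRange (LieAlgebra.ad ℂ g x : g →ₗ[ℂ] g)).finrank_eq.symm
  obtain ⟨m₁, M₁, hm₁, hM₁, hsz⟩ := size_equiv (adM b) hinj
  obtain ⟨m₀, M₀, hm₀, hbd⟩ := hIf.bdd
  refine ⟨fun x => rho lev (adM b x), ⟨?_, ?_, ?_, ?_, ?_⟩⟩
  · intro x hx c hc
    refine ⟨(hOrb x hx).2.2 c hc, ?_⟩
    rw [map_smul]
    exact hIf.hom _ _
  · refine ⟨m₀ * m₁, |M₀| * M₁, by positivity, fun x hx => ?_⟩
    obtain ⟨q1, q2⟩ := hbd _ (hRT x hx)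
    obtain ⟨q3, q4⟩ := hsz x
    constructor
    · refine le_trans ?_ q1
      rw [mul_assoc]
      exact mul_le_mul_of_nonneg_left q3 hm₀.le
    · refine q2.trans ?_
      rw [mul_assoc]
      exact (mul_le_mul_of_nonneg_right (le_abs_self _) (norm_nonneg _)).trans
        (mul_le_mul_of_nonneg_left q4 (abs_nonneg _))
  · intro x hx k X
    have := (h7 _ _ lev hIf _ (hRT x hx) k (fun j => adM b (X j))).1
    rw [← hch] at this
    exact this
  · intro x hx k X
    obtain ⟨G, e, hG, -⟩ := main x hx k X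
    rw [e]
    exact hG.transpose
  · intro x hx k X hk
    obtain ⟨G, e, -, hG⟩ := main x hx k X
    rw [e, det_transpose]
    exact hG hk

end Pool.Agent.Helper95.NO
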