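import Pool.Agent.Helper67.NO.St3

/-! MODULE MON of project NO (MP_26be5b_ag): the moment map stays in `L`. -/

set_option autoImplicit false

namespace Pool.Agent.Helper95.NO

open Pool.Agent.Helper67.NO
open Matrix
open scoped Matrix.Norms.Frobenius ContDiff Topology

section

variable {ι : Type} [Fintype ι] [DecidableEq ι]

private theorem nrm_sq (x : Matrix ι ι ℂ) : ‖x‖ ^ 2 = (trace (xᴴ * x)).re := by
  have h0 : (0 : ℝ) ≤ ∑ i, ∑ j, ‖x i j‖ ^ (2 : ℝ) := by positivity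
  rw [Matrix.frobenius_norm_def, ← Real.rpow_natCast, ← Real.rpow_mul h0]
  norm_num
  simp only [trace, diag_apply, mul_apply, conjTranspose_apply, Complex.re_sum]
  rw [Finset.sum_comm]
  refine Finset.sum_congr rfl fun i _ => Finset.sum_congr rfl fun j _ => ?_
  rw [← Complex.normSq_eq_norm_sq, Complex.normSq_apply]
  simp

private theorem nrm_add (x y : Matrix ι ι ℂ) :
    ‖x + y‖ ^ 2 = ‖x‖ ^ 2 + 2 * (trace (xᴴ * y)).re + ‖y‖ ^ 2 := by
  have e : (trace (yᴴ * x)).re = (trace (xᴴ * y)).re := by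
    have h1 : yᴴ * x = (xᴴ * y)ᴴ := by rw [conjTranspose_mul, conjTranspose_conjTranspose]
    rw [h1, trace_conjTranspose]
    simp
  rw [nrm_sq, nrm_sq x, nrm_sq y, conjTranspose_add, add_mul, mul_add, mul_add]
  simp only [trace_add, Complex.add_re, e]
  ring

private theorem cs (x y : Matrix ι ι ℂ) : -(‖x‖ * ‖y‖) ≤ (trace (xᴴ * y)).re := by
  have h1 := nrm_add x y
  have h2 : |‖x‖ - ‖y‖| ≤ ‖x + y‖ := by
    have := abs_norm_sub_norm_le x (-y)
    rwa [norm_neg, sub_neg_eq_add] at this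
  have h3 : (‖x‖ - ‖y‖) ^ 2 ≤ ‖x + y‖ ^ 2 := by
    rw [← sq_abs (‖x‖ - ‖y‖)]
    exact pow_le_pow_left₀ (abs_nonneg _) h2 2
  nlinarith

/-- the real part of the trace as a continuous real linear map -/
private noncomputable def rt : Matrix ι ι ℂ →L[ℝ] ℝ :=
  Complex.reCLM.comp
    (LinearMap.toContinuousLinearMap ((traceLinearMap ι ℂ ℂ).restrictScalars ℝ))

private theorem rt_apply (x : Matrix ι ι ℂ) : rt x = (trace x).re := rfl

private theorem mono {T c : ℝ} {f f' : ℝ → ℝ}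
    (h : ∀ t ∈ Set.Icc (0 : ℝ) T, HasDerivWithinAt f (f' t) (Set.Icc 0 T) t)
    (hc : ∀ t ∈ Set.Icc (0 : ℝ) T, f' t ≤ c) :
    ∀ t ∈ Set.Icc (0 : ℝ) T, f t ≤ f 0 + c * t := by
  intro t ht
  have hT : (0 : ℝ) ≤ T := ht.1.trans ht.2
  have hd : ∀ t ∈ Set.Icc (0 : ℝ) T,
      HasDerivWithinAt (fun s => f s - c * s) (f' t - c) (Set.Icc 0 T) t := by
    intro t ht
    have := (h t ht).sub ((hasDerivWithinAt_id t (Set.Icc 0 T)).const_mul c)
    rw [mul_one] at this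
    exact this
  have hm : AntitoneOn (fun s => f s - c * s) (Set.Icc 0 T) := by
    apply antitoneOn_of_deriv_nonpos (convex_Icc 0 T)
    · intro s hs
      exact (hd s hs).continuousWithinAt
    · intro s hs
      exact ((hd s (interior_subset hs)).differentiableWithinAt).mono interior_subset
    · intro s hs
      have hs' : Set.Icc (0 : ℝ) T ∈ 𝓝 s := mem_interior_iff_mem_nhds.1 hs
      rw [((hd s (interior_subset hs)).hasDerivAt hs').deriv]
      have := hc s (interior_subset hs)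
      linarith
  have := hm (Set.left_mem_Icc.2 hT) ht ht.1
  simp only [mul_zero, sub_zero] at this
  linarith

/-- derivative of a function of `y t * A * (y t)⁻¹` -/
private theorem der {E : Type} [NormedAddCommGroup E] [NormedSpace ℝ E] {T : ℝ}
    {y : ℝ → Matrix ι ι ℂ} {A : Matrix ι ι ℂ} (f : Matrix ι ι ℂ → E)
    (hu : ∀ t ∈ Set.Icc (0 : ℝ) T, IsUnit (y t)) {t : ℝ} (ht : t ∈ Set.Icc (0 : ℝ) T)
    (K : Matrix ι ι ℂ) (hy : HasDerivWithinAt y (K * y t) (Set.Icc 0 T) t)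
    (hf : DifferentiableAt ℝ (fun g : Matrix ι ι ℂ => f (g * (y t * A * (y t)⁻¹) * g⁻¹)) 1) :
    HasDerivWithinAt (fun s => f (y s * A * (y s)⁻¹))
      (fderiv ℝ (fun g : Matrix ι ι ℂ => f (g * (y t * A * (y t)⁻¹) * g⁻¹)) 1 K)
      (Set.Icc 0 T) t := by
  have hinv : ∀ s ∈ Set.Icc (0 : ℝ) T, y s * (y s)⁻¹ = 1 ∧ (y s)⁻¹ * y s = 1 := by
    intro s hs
    have h1 : IsUnit (y s).det := (isUnit_iff_isUnit_det _).1 (hu s hs)
    exact ⟨mul_nonsing_inv _ h1, nonsing_inv_mul _ h1⟩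
  have hg : HasDerivWithinAt (fun s => y s * (y t)⁻¹) K (Set.Icc 0 T) t := by
    have := hy.mul_const ((y t)⁻¹)
    rwa [mul_assoc, (hinv t ht).1, mul_one] at this
  have hg1 : (fun s => y s * (y t)⁻¹) t = 1 := (hinv t ht).1
  have hF : HasFDerivAt (fun g : Matrix ι ι ℂ => f (g * (y t * A * (y t)⁻¹) * g⁻¹))
      (fderiv ℝ (fun g : Matrix ι ι ℂ => f (g * (y t * A * (y t)⁻¹) * g⁻¹)) 1)
      ((fun s => y s * (y t)⁻¹) t) := by
    rw [hg1]
    exact hf.hasFDerivAt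
  have hcomp := hF.comp_hasDerivWithinAt t hg
  refine hcomp.congr_of_mem ?_ ht
  intro s hs
  change f (y s * A * (y s)⁻¹) =
    f (y s * (y t)⁻¹ * (y t * A * (y t)⁻¹) * (y s * (y t)⁻¹)⁻¹)
  congr 1
  have e1 : (y s * (y t)⁻¹)⁻¹ = y t * (y s)⁻¹ := by
    rw [Matrix.mul_inv_rev, Matrix.nonsing_inv_nonsing_inv _ ((isUnit_iff_isUnit_det _).1 (hu t ht))]
  rw [e1]
  have h2 := hinv t ht
  calc y s * A * (y s)⁻¹ = y s * 1 * A * 1 * (y s)⁻¹ := by rw [mul_one, mul_one]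
    _ = y s * ((y t)⁻¹ * y t) * A * ((y t)⁻¹ * y t) * (y s)⁻¹ := by rw [h2.2]
    _ = _ := by noncomm_ring

/-- algebra of the two parts of a Hermitian matrix -/
private theorem parts {L : Submodule ℂ (Matrix ι ι ℂ)} {P : Matrix ι ι ℂ →ₗ[ℂ] Matrix ι ι ℂ}
    (hstar : ∀ X ∈ L, Xᴴ ∈ L) (hP : IsPr L P) (hPs : ∀ X, P Xᴴ = (P X)ᴴ) {H : Matrix ι ι ℂ}
    (hH : H.IsHermitian) :
    (P H).IsHermitian ∧ (H - P H).IsHermitian ∧ (trace (P H * H)).re = ‖P H‖ ^ 2 ∧
      (∀ Z ∈ L, trace ((H - P H) * Z) = 0) ∧ (∀ Z ∈ L, trace (Z * (H - P H)) = 0) := by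
  have h1 : (P H).IsHermitian := by
    have := hPs H
    rw [hH.eq] at this
    exact this.symm
  have h2 : (H - P H).IsHermitian := hH.sub h1
  have h3 : ∀ Z ∈ L, trace (Z * (H - P H)) = 0 := by
    intro Z hZ
    have := hP.orth H Zᴴ (hstar Z hZ)
    rwa [conjTranspose_conjTranspose] at this
  refine ⟨h1, h2, ?_, ?_, h3⟩
  · have e : P H * H = (P H)ᴴ * P H + P H * (H - P H) := by
      rw [h1.eq, mul_sub]
      abel
    rw [e, trace_add, h3 _ (hP.mem H), add_zero, nrm_sq]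
  · intro Z hZ
    rw [trace_mul_comm]
    exact h3 Z hZ

end

/-- MODULE MON. -/
theorem pMON (h1 : StNIL) (h2 : StPRO) (h3 : StLOW) (h4 : StODE) : StMON := by
  intro ι κ _ _ _ _ lev L I hL A hA hR
  obtain ⟨P, hP, hPs, hPn, -⟩ := h2 ι L hL.star
  by_contra hn
  have hRT : ∀ g : Matrix ι ι ℂ, IsUnit g → RT lev (g * A * g⁻¹) := (h1 ι κ lev A hR).2.1
  have hε : 0 < ‖Hm lev A - P (Hm lev A)‖ := by
    rw [norm_pos_iff]
    intro h0
    apply hn
    rw [sub_eq_zero] at h0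
    rw [h0]
    exact hP.mem _
  set ε := ‖Hm lev A - P (Hm lev A)‖ with hεd
  obtain ⟨m, M0, hm, hb⟩ := I.bdd
  have hρ0 : 0 ≤ rho lev A := le_trans (by positivity) (hb A hR).1
  obtain ⟨c, R, hc, hRp, hlow⟩ := h3 ι κ lev L I hL (ε / 2) (rho lev A / m) (by positivity)
  set T : ℝ := rho lev A * R ^ 2 / c ^ 2 + 1 with hT
  have hTpos : 0 < T := by positivity
  obtain ⟨y, hy0, hy⟩ := h4 ι κ lev L P I hL hP hPs A hA hR T hTpos
  have hu : ∀ t ∈ Set.Icc (0 : ℝ) T, IsUnit (y t) := fun t ht => (hy t ht).1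
  have hRt : ∀ t ∈ Set.Icc (0 : ℝ) T, RT lev (y t * A * (y t)⁻¹) := fun t ht => hRT _ (hu t ht)
  have hA0 : y 0 * A * (y 0)⁻¹ = A := by rw [hy0, inv_one, one_mul, mul_one]
  -- derivative of the potential
  have dρ : ∀ t ∈ Set.Icc (0 : ℝ) T, HasDerivWithinAt (fun s => rho lev (y s * A * (y s)⁻¹))
      (-2 * ‖P (Hm lev (y t * A * (y t)⁻¹))‖ ^ 2) (Set.Icc 0 T) t := by
    intro t ht
    have hd := der (rho lev) hu ht (-(P (Hm lev (y t * A * (y t)⁻¹)))) (hy t ht).2.2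
      ((I.smooth _ (hRt t ht)).differentiableAt (by simp))
    rw [I.grad _ (hRt t ht), neg_mul, trace_neg, Complex.neg_re,
      (parts hL.star hP hPs (I.herm _ (hRt t ht))).2.2.1] at hd
    have e : -2 * ‖P (Hm lev (y t * A * (y t)⁻¹))‖ ^ 2 =
        2 * -(‖P (Hm lev (y t * A * (y t)⁻¹))‖ ^ 2) := by ring
    rw [e]
    exact hd
  -- derivative of the moment map
  have dH : ∀ t ∈ Set.Icc (0 : ℝ) T, HasDerivWithinAt (fun s => Hm lev (y s * A * (y s)⁻¹))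
      (DHm lev (y t * A * (y t)⁻¹) (-(P (Hm lev (y t * A * (y t)⁻¹))))) (Set.Icc 0 T) t := by
    intro t ht
    exact der (Hm lev) hu ht (-(P (Hm lev (y t * A * (y t)⁻¹)))) (hy t ht).2.2
      ((I.smoothH _ (hRt t ht)).differentiableAt (by simp))
  -- the part outside of `L`
  have dN : ∀ t ∈ Set.Icc (0 : ℝ) T, ∃ r : ℝ, r ≤ 0 ∧ HasDerivWithinAt
      (fun s => -(‖Hm lev (y s * A * (y s)⁻¹) - P (Hm lev (y s * A * (y s)⁻¹))‖ ^ 2)) r
      (Set.Icc 0 T) t := by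
    intro t ht
    set B := y t * A * (y t)⁻¹ with hB
    set H := Hm lev B with hHd
    obtain ⟨p1, p2, -, p4, p5⟩ := parts hL.star hP hPs (I.herm _ (hRt t ht))
    rw [← hB, ← hHd] at p1 p2 p4 p5
    obtain ⟨F, hF⟩ := I.bform _ (hRt t ht)
    rw [← hB, ← hHd] at hF
    have hDadd : ∀ X Z, DHm lev B (X + Z) = DHm lev B X + DHm lev B Z := fun X Z => map_add _ X Z
    have hDneg : ∀ X, DHm lev B (-X) = - DHm lev B X := fun X => map_neg _ X
    set D := DHm lev B (-(P H)) with hD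
    have hDe : D = DHm lev B (H - P H) - (2 : ℂ) • br B Bᴴ := by
      have e1 : -(P H) = (H - P H) + (-H) := by abel
      have fl : DHm lev B H = (2 : ℂ) • br B Bᴴ := I.flow _ (hRt t ht)
      rw [hD, e1, hDadd, hDneg, fl]
      exact (sub_eq_add_neg _ _).symm
    have hBL : B ∈ L := (hy t ht).2.1
    have hbr : (2 : ℂ) • br B Bᴴ ∈ L := L.smul_mem _ (hL.lie _ hBL _ (hL.star _ hBL))
    have key : (trace ((H - P H) * D)).re = 2 * (F (H - P H) (H - P H)).re := by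
      rw [hDe, mul_sub, trace_sub, p4 _ hbr, sub_zero]
      exact hF.real _ _ p2 p2
    -- real linear maps
    let Q : Matrix ι ι ℂ →L[ℝ] Matrix ι ι ℂ :=
      LinearMap.toContinuousLinearMap ((LinearMap.id - P).restrictScalars ℝ)
    have hQ : ∀ X, Q X = X - P X := fun X => rfl
    have d1 : HasDerivWithinAt (fun s => Q (Hm lev (y s * A * (y s)⁻¹))) (Q D) (Set.Icc 0 T) t :=
      Q.hasFDerivAt.comp_hasDerivWithinAt t (dH t ht)
    have d2 : HasDerivWithinAt (fun s => Q (Hm lev (y s * A * (y s)⁻¹)) * Q (Hm lev (y s * A * (y s)⁻¹)))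
        (Q D * Q H + Q H * Q D) (Set.Icc 0 T) t := d1.mul d1
    have d3 : HasDerivWithinAt
        (fun s => rt (Q (Hm lev (y s * A * (y s)⁻¹)) * Q (Hm lev (y s * A * (y s)⁻¹))))
        (rt (Q D * Q H + Q H * Q D)) (Set.Icc 0 T) t :=
      rt.hasFDerivAt.comp_hasDerivWithinAt t d2
    have hval : rt (Q D * Q H + Q H * Q D) = 4 * (F (H - P H) (H - P H)).re := by
      rw [rt_apply, trace_add, trace_mul_comm (Q D) (Q H), hQ, hQ, mul_sub (H - P H) D,
        trace_sub, p4 _ (hP.mem D), sub_zero, Complex.add_re, key]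
      ring
    refine ⟨-(4 * (F (H - P H) (H - P H)).re), ?_, ?_⟩
    · have := hF.nonneg (H - P H)
      linarith
    · rw [← hval]
      refine (d3.neg).congr_of_mem ?_ ht
      intro s hs
      have q2 := (parts hL.star hP hPs (I.herm _ (hRt s hs))).2.1
      change -(‖Hm lev (y s * A * (y s)⁻¹) - P (Hm lev (y s * A * (y s)⁻¹))‖ ^ 2) =
        -(rt (Q (Hm lev (y s * A * (y s)⁻¹)) * Q (Hm lev (y s * A * (y s)⁻¹))))
      rw [hQ, rt_apply, nrm_sq, q2.eq]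
  choose! r hr0 hrd using dN
  have n1 : ∀ t ∈ Set.Icc (0 : ℝ) T,
      ε ≤ ‖Hm lev (y t * A * (y t)⁻¹) - P (Hm lev (y t * A * (y t)⁻¹))‖ := by
    intro t ht
    have := mono hrd hr0 t ht
    simp only [hA0, zero_mul, add_zero] at this
    rw [← hεd] at this
    exact (pow_le_pow_iff_left₀ hε.le (norm_nonneg _) two_ne_zero).1 (by linarith)
  have n2 : ∀ t ∈ Set.Icc (0 : ℝ) T, rho lev (y t * A * (y t)⁻¹) ≤ rho lev A := by
    intro t ht
    have := mono dρ (c := 0) (fun s _ => by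
      have : 0 ≤ ‖P (Hm lev (y s * A * (y s)⁻¹))‖ ^ 2 := by positivity
      linarith) t ht
    simp only [hA0, zero_mul, add_zero] at this
    exact this
  have n3 : ∀ t ∈ Set.Icc (0 : ℝ) T,
      -2 * ‖P (Hm lev (y t * A * (y t)⁻¹))‖ ^ 2 ≤ -(2 * c ^ 2 / R ^ 2) := by
    intro t ht
    obtain ⟨-, p2, -, -, p5⟩ := parts hL.star hP hPs (I.herm _ (hRt t ht))
    set B := y t * A * (y t)⁻¹ with hB
    set H := Hm lev B with hHd
    have hBL : B ∈ L := (hy t ht).2.1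
    have e1 : ‖H‖ ^ 2 = 2 * ‖B‖ ^ 2 := I.eik _ (hRt t ht)
    have e2 := hPn H
    have e3 := n1 t ht
    have e4 : ε ^ 2 ≤ ‖H - P H‖ ^ 2 := pow_le_pow_left₀ hε.le e3 2
    have e5 : (ε / 2) ^ 2 ≤ ‖B‖ ^ 2 := by
      have : 0 ≤ ‖P H‖ ^ 2 := by positivity
      have : 0 ≤ ε ^ 2 := by positivity
      nlinarith
    have e6 : ε / 2 ≤ ‖B‖ := (pow_le_pow_iff_left₀ (by positivity) (norm_nonneg _) two_ne_zero).1 e5
    have e7 : ‖B‖ ≤ rho lev A / m := by
      rw [le_div_iff₀ hm]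
      have := (hb B (hRt t ht)).1
      have := n2 t ht
      linarith
    obtain ⟨Y, hYL, hYh, hYR, hYc⟩ := hlow B hBL (hRt t ht) e6 e7
    have e8 : trace (Y * H) = trace (Y * P H) := by
      have : Y * H = Y * P H + Y * (H - P H) := by
        rw [mul_sub]
        abel
      rw [this, trace_add, p5 _ hYL, add_zero]
    have e9 := cs Y (P H)
    rw [hYh.eq, ← e8] at e9
    have e10 : c ≤ R * ‖P H‖ := by
      have : ‖Y‖ * ‖P H‖ ≤ R * ‖P H‖ := mul_le_mul_of_nonneg_right hYR (norm_nonneg _)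
      linarith
    have e11 : c ^ 2 ≤ R ^ 2 * ‖P H‖ ^ 2 := by
      rw [← mul_pow]
      exact pow_le_pow_left₀ hc.le e10 2
    have e12 : c ^ 2 / R ^ 2 ≤ ‖P H‖ ^ 2 := by
      rw [div_le_iff₀ (by positivity)]
      linarith
    have e13 : 2 * c ^ 2 / R ^ 2 = 2 * (c ^ 2 / R ^ 2) := by ring
    rw [e13]
    linarith
  have hTm : T ∈ Set.Icc (0 : ℝ) T := Set.right_mem_Icc.2 hTpos.le
  have f1 := mono dρ n3 T hTm
  simp only [hA0] at f1
  have f2 : 0 ≤ rho lev (y T * A * (y T)⁻¹) := le_trans (by positivity) (hb _ (hRt T hTm)).1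
  have f3 : 2 * c ^ 2 / R ^ 2 * T = 2 * rho lev A + 2 * c ^ 2 / R ^ 2 := by
    rw [hT]
    field_simp
  have f4 : 0 < 2 * c ^ 2 / R ^ 2 := by positivity
  have f5 : -(2 * c ^ 2 / R ^ 2) * T = -(2 * c ^ 2 / R ^ 2 * T) := by ring
  rw [f5, f3] at f1
  linarith

end Pool.Agent.Helper95.NO
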